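import Pool.Agent.W873.RS.Stm

/-!
# The number of distinct real roots is a measurable function
-/

set_option autoImplicit false

open MeasureTheory Polynomial Filter Topology

namespace Pool.Agent.W111.RS.MEAS

open Pool.Agent.W873.RS

theorem eval_total {s : ℕ} (A : Fin s → Finset ℕ) (σ : Fin s → ℕ → ℝ) (c : Fin s → ℝ)
    (h : ℝ[X]) (z : (i : Fin s) → A i → ℝ) (x : ℝ) : (total A σ c h z).eval x =
      h.eval x + ∑ i, c i * (∑ j : A i, σ i j * z i j * x ^ (j : ℕ)) ^ 2 := by
  unfold total lin
  simp [eval_finsetSum]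

theorem continuous_total {s : ℕ} (A : Fin s → Finset ℕ) (σ : Fin s → ℕ → ℝ) (c : Fin s → ℝ)
    (h : ℝ[X]) :
    Continuous (fun p : ((i : Fin s) → A i → ℝ) × ℝ => (total A σ c h p.1).eval p.2) := by
  simp only [eval_total]
  have h1 : Continuous (fun p : ((i : Fin s) → A i → ℝ) × ℝ => h.eval p.2) :=
    h.continuous.comp continuous_snd
  refine h1.add (continuous_finsetSum _ fun i _ => ?_)
  refine continuous_const.mul ((continuous_finsetSum _ fun j _ => ?_).pow 2)
  refine (continuous_const.mul ?_).mul (continuous_snd.pow _)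
  exact (continuous_apply j).comp ((continuous_apply i).comp continuous_fst)

theorem closed_root {s : ℕ} (A : Fin s → Finset ℕ) (σ : Fin s → ℕ → ℝ) (c : Fin s → ℝ)
    (h : ℝ[X]) (a b : ℝ) :
    IsClosed {z : (i : Fin s) → A i → ℝ | ∃ x ∈ Set.Icc a b, (total A σ c h z).eval x = 0} := by
  have h1 : IsClosed {p : ((i : Fin s) → A i → ℝ) × Set.Icc a b |
      (total A σ c h p.1).eval (p.2 : ℝ) = 0} := by
    refine isClosed_eq ?_ continuous_const
    exact (continuous_total A σ c h).comp
      (continuous_fst.prodMk (continuous_subtype_val.comp continuous_snd))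
  have h2 := isClosedMap_fst_of_compactSpace (X := ((i : Fin s) → A i → ℝ))
    (Y := Set.Icc a b) _ h1
  convert h2 using 1
  ext z
  simp only [Set.mem_ofPred_eq, Set.mem_image, Prod.exists, exists_and_right, exists_eq_right]
  constructor
  · rintro ⟨x, hx, h0⟩
    exact ⟨⟨x, hx⟩, h0⟩
  · rintro ⟨⟨x, hx⟩, h0⟩
    exact ⟨x, hx, h0⟩

theorem closed_zero {s : ℕ} (A : Fin s → Finset ℕ) (σ : Fin s → ℕ → ℝ) (c : Fin s → ℝ)
    (h : ℝ[X]) : IsClosed {z : (i : Fin s) → A i → ℝ | total A σ c h z = 0} := by
  have h1 : {z : (i : Fin s) → A i → ℝ | total A σ c h z = 0} =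
      ⋂ n : ℕ, {z | (total A σ c h z).eval (n : ℝ) = 0} := by
    ext z
    simp only [Set.mem_ofPred_eq, Set.mem_iInter]
    constructor
    · intro h0 n
      rw [h0, eval_zero]
    · intro h0
      refine Polynomial.eq_zero_of_infinite_isRoot _ ?_
      refine Set.Infinite.mono (s := Set.range (fun n : ℕ => (n : ℝ))) ?_
        (Set.infinite_range_of_injective Nat.cast_injective)
      rintro _ ⟨n, rfl⟩
      exact h0 n
  rw [h1]
  refine isClosed_iInter fun n => isClosed_eq ?_ continuous_const
  exact (continuous_total A σ c h).comp (continuous_id.prodMk continuous_const)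

/-- Counting the roots with rational balls. -/
theorem le_card_roots (f : ℝ[X]) (hf : f ≠ 0) (k : ℕ) : k ≤ f.roots.toFinset.card ↔
    ∃ p : (Fin k → ℚ) × ℚ, (∀ i j, i ≠ j → 2 * (p.2 : ℝ) < |(p.1 i : ℝ) - p.1 j|) ∧
      ∀ j, ∃ x ∈ Set.Icc ((p.1 j : ℝ) - p.2) (p.1 j + p.2), f.eval x = 0 := by
  constructor
  · intro hk
    obtain ⟨S, hS, hSk⟩ := Finset.exists_subset_card_eq hk
    have e : Fin k ≃ S := (Fintype.equivFinOfCardEq (by simpa using hSk)).symm
    have hinj : ∀ i j, i ≠ j → ((e i : S) : ℝ) ≠ e j := fun i j hij h =>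
      hij (e.injective (Subtype.ext h))
    have h1 : ∀ᶠ δ : ℝ in 𝓝[>] 0, ∀ i j, i ≠ j → 4 * δ < |((e i : S) : ℝ) - e j| := by
      rw [eventually_all]
      intro i
      rw [eventually_all]
      intro j
      by_cases hij : i = j
      · exact Eventually.of_forall fun _ h => (h hij).elim
      · have h2 : 0 < |((e i : S) : ℝ) - e j| := abs_pos.2 (sub_ne_zero.2 (hinj i j hij))
        have h3 : ∀ᶠ δ : ℝ in 𝓝[>] 0, 4 * δ < |((e i : S) : ℝ) - e j| := by
          refine eventually_nhdsWithin_of_eventually_nhds ?_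
          have h4 : Tendsto (fun δ : ℝ => 4 * δ) (𝓝 0) (𝓝 (4 * 0)) :=
            (continuous_const.mul continuous_id).tendsto 0
          exact h4.eventually_lt_const (by simpa using h2)
        filter_upwards [h3] with δ h5 _
        exact h5
    obtain ⟨δ₀, h2, h3⟩ :=
      (h1.and (eventually_mem_nhdsWithin : ∀ᶠ δ : ℝ in 𝓝[>] 0, δ ∈ Set.Ioi 0)).exists
    obtain ⟨δ, h4, h5⟩ := exists_rat_btwn (show (0 : ℝ) < δ₀ from h3)
    have h6 : ∀ j, ∃ q : ℚ, ((e j : S) : ℝ) - δ < q ∧ (q : ℝ) < e j := fun j =>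
      exists_rat_btwn (by linarith)
    choose q hq1 hq2 using h6
    refine ⟨(q, δ), fun i j hij => ?_, fun j => ⟨e j, ⟨?_, ?_⟩, ?_⟩⟩
    · have h7 := h2 i j hij
      have h8 : |((e i : S) : ℝ) - e j| ≤ |(q i : ℝ) - q j| + 2 * δ := by
        have h9 : ((e i : S) : ℝ) - e j =
            ((q i : ℝ) - q j) + ((((e i : S) : ℝ) - q i) - (((e j : S) : ℝ) - q j)) := by ring
        have h10 : |(((e i : S) : ℝ) - q i) - (((e j : S) : ℝ) - q j)| ≤ 2 * δ := by
          rw [abs_le]
          constructor <;> linarith [hq1 i, hq2 i, hq1 j, hq2 j]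
        calc |((e i : S) : ℝ) - e j| = _ := by rw [h9]
          _ ≤ _ := (abs_add_le _ _).trans (by linarith)
      simp only
      linarith
    · simp only
      linarith [hq1 j, hq2 j]
    · simp only
      linarith [hq1 j, hq2 j]
    · have h7 := hS (e j).2
      rw [Multiset.mem_toFinset, mem_roots hf] at h7
      exact h7
  · rintro ⟨⟨q, δ⟩, h1, h2⟩
    choose x hx1 hx2 using h2
    have hinj : Function.Injective x := by
      intro i j hij
      by_contra hne
      have h3 := h1 i j hne
      have h4 := hx1 i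
      have h5 := hx1 j
      simp only [Set.mem_Icc] at h3 h4 h5
      rw [hij] at h4
      have h6 : |(q i : ℝ) - q j| ≤ 2 * δ := by
        rw [abs_le]
        constructor <;> linarith [h4.1, h4.2, h5.1, h5.2]
      linarith
    have h3 : (Finset.univ.image x).card = k := by
      rw [Finset.card_image_of_injective _ hinj]
      simp
    rw [← h3]
    refine Finset.card_le_card fun y hy => ?_
    obtain ⟨j, _, rfl⟩ := Finset.mem_image.1 hy
    rw [Multiset.mem_toFinset, mem_roots hf]
    exact hx2 j

theorem main : Pool.Agent.W873.RS.MEAS := by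
  intro s A σ c h
  have key : ∀ k : ℕ, MeasurableSet {z : (i : Fin s) → A i → ℝ |
      k ≤ (total A σ c h z).roots.toFinset.card} := by
    intro k
    rcases Nat.eq_zero_or_pos k with rfl | hk
    · simp
    · have h1 : {z : (i : Fin s) → A i → ℝ | k ≤ (total A σ c h z).roots.toFinset.card} =
          {z | total A σ c h z = 0}ᶜ ∩ ⋃ p : (Fin k → ℚ) × ℚ,
            ⋃ _ : (∀ i j, i ≠ j → 2 * (p.2 : ℝ) < |(p.1 i : ℝ) - p.1 j|),
              ⋂ j, {z | ∃ x ∈ Set.Icc ((p.1 j : ℝ) - p.2) (p.1 j + p.2),
                (total A σ c h z).eval x = 0} := by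
        ext z
        simp only [Set.mem_ofPred_eq, Set.mem_inter_iff, Set.mem_compl_iff, Set.mem_iUnion,
          Set.mem_iInter]
        constructor
        · intro h2
          have hne : total A σ c h z ≠ 0 := by
            intro h0
            rw [h0] at h2
            simp at h2
            omega
          obtain ⟨p, h3, h4⟩ := (le_card_roots _ hne k).1 h2
          exact ⟨hne, p, h3, h4⟩
        · rintro ⟨hne, p, h3, h4⟩
          exact (le_card_roots _ hne k).2 ⟨p, h3, h4⟩
      rw [h1]
      refine (closed_zero A σ c h).measurableSet.compl.inter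
        (MeasurableSet.iUnion fun p => MeasurableSet.iUnion fun _ =>
          MeasurableSet.iInter fun j => (closed_root A σ c h _ _).measurableSet)
  refine measurable_to_countable' fun k => ?_
  have h1 : (fun z : (i : Fin s) → A i → ℝ => (total A σ c h z).roots.toFinset.card) ⁻¹' {k} =
      {z | k ≤ (total A σ c h z).roots.toFinset.card} \
        {z | k + 1 ≤ (total A σ c h z).roots.toFinset.card} := by
    ext z
    simp only [Set.mem_preimage, Set.mem_singleton_iff, Set.mem_sdiff, Set.mem_ofPred_eq]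
    omega
  rw [h1]
  exact (key k).diff (key (k + 1))

end Pool.Agent.W111.RS.MEAS
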